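import Pool.Agent.Helper95.Lin.GoalsA
import Pool.Agent.Helper8.Abund.FDerivHolo

/-!
# Packet MONTEL: Montel's theorem in several variables
-/

open Complex Metric Set Filter Topology

namespace Helper27.LinMontel

open Pool.Agent.Helper95.Lin

/-- Locally bounded sequences of holomorphic maps are locally equi-Lipschitz. -/
theorem equi_lip {n m : ℕ} {U : Set (Cn n)} (hU : IsOpen U) {f : ℕ → Cn n → Cn m}
    (hf : ∀ k, DifferentiableOn ℂ (f k) U)
    (hb : ∀ K ⊆ U, IsCompact K → ∃ C : ℝ, ∀ k, ∀ z ∈ K, ‖f k z‖ ≤ C) {z : Cn n} (hz : z ∈ U) :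
    ∃ r L : ℝ, 0 < r ∧ 0 ≤ L ∧ closedBall z (3 * r) ⊆ U ∧ ∀ k, ∀ x ∈ ball z r, ∀ y ∈ ball z r,
      ‖f k x - f k y‖ ≤ L * ‖x - y‖ := by
  obtain ⟨ε, hε, hεU⟩ := Metric.isOpen_iff.mp hU z hz
  set r := ε / 6 with hr
  have hr0 : 0 < r := by positivity
  have hsub : closedBall z (3 * r) ⊆ U := (closedBall_subset_ball (by linarith)).trans hεU
  obtain ⟨C, hC⟩ := hb _ hsub (isCompact_closedBall z (3 * r))
  have hC0 : 0 ≤ C := (norm_nonneg _).trans (hC 0 z (mem_closedBall_self (by positivity)))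
  refine ⟨r, C / r, hr0, by positivity, hsub, fun k x hx y hy => ?_⟩
  have hin : ∀ w ∈ ball z r, ball w (2 * r) ⊆ closedBall z (3 * r) := fun w hw v hv => by
    rw [mem_ball] at hw hv
    rw [mem_closedBall]
    calc dist v z ≤ dist v w + dist w z := dist_triangle _ _ _
      _ ≤ 3 * r := by linarith
  refine (convex_ball z r).norm_image_sub_le_of_norm_fderiv_le (𝕜 := ℂ) (fun w hw => ?_)
    (fun w hw => ?_) hy hx
  · exact (hf k).differentiableAt (hU.mem_nhds (hsub (hin w hw (mem_ball_self (by positivity)))))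
  · exact Pool.Agent.Helper8.Abund.norm_fderiv_le_of_bound hr0
      ((hf k).mono ((hin w hw).trans hsub)) fun u hu => hC k u (hin w hw hu)

/-- A subsequence converging at all points of a dense sequence. -/
theorem diag {n m : ℕ} {U : Set (Cn n)} {f : ℕ → Cn n → Cn m}
    (hb : ∀ K ⊆ U, IsCompact K → ∃ C : ℝ, ∀ k, ∀ z ∈ K, ‖f k z‖ ≤ C) (q : ℕ → Cn n) :
    ∃ φ : ℕ → ℕ, StrictMono φ ∧ ∀ j, q j ∈ U → ∃ l, Tendsto (fun k => f (φ k) (q j)) atTop (𝓝 l) := by
  classical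
  have h1 : ∀ j, ∃ C : ℝ, ∀ k, (if q j ∈ U then f k (q j) else 0) ∈ closedBall (0 : Cn m) C := by
    intro j
    by_cases hj : q j ∈ U
    · obtain ⟨C, hC⟩ := hb {q j} (singleton_subset_iff.mpr hj) isCompact_singleton
      refine ⟨C, fun k => ?_⟩
      rw [if_pos hj, mem_closedBall_zero_iff]
      exact hC k _ rfl
    · exact ⟨0, fun k => by rw [if_neg hj]; simp⟩
  choose C hC using h1
  have hc : IsCompact (Set.pi univ fun j => closedBall (0 : Cn m) (C j)) :=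
    isCompact_univ_pi fun j => isCompact_closedBall _ _
  obtain ⟨l, -, φ, hφ, hl⟩ := hc.tendsto_subseq
    (x := fun k j => if q j ∈ U then f k (q j) else 0) fun k j _ => hC j k
  refine ⟨φ, hφ, fun j hj => ⟨l j, ?_⟩⟩
  have := (tendsto_pi_nhds.mp hl) j
  simpa [Function.comp_def, hj] using this

/-- Locally uniform Cauchy property. -/
theorem cauchy_loc {n m : ℕ} {U : Set (Cn n)} (hU : IsOpen U) {f : ℕ → Cn n → Cn m}
    (hf : ∀ k, DifferentiableOn ℂ (f k) U)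
    (hb : ∀ K ⊆ U, IsCompact K → ∃ C : ℝ, ∀ k, ∀ z ∈ K, ‖f k z‖ ≤ C) {q : ℕ → Cn n}
    (hq : DenseRange q) (hl : ∀ j, q j ∈ U → ∃ l, Tendsto (fun k => f k (q j)) atTop (𝓝 l))
    {z : Cn n} (hz : z ∈ U) {ε : ℝ} (hε : 0 < ε) :
    ∃ t ∈ 𝓝 z, ∃ N : ℕ, ∀ i ≥ N, ∀ j ≥ N, ∀ w ∈ t, ‖f i w - f j w‖ ≤ ε := by
  obtain ⟨r, L, hr, hL, hsub, hlip⟩ := equi_lip hU hf hb hz
  set δ := min r (ε / (8 * (L + 1))) with hδ
  have hδ0 : 0 < δ := lt_min hr (by positivity)
  have hδr : δ ≤ r := min_le_left _ _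
  have hδL : L * (2 * δ) ≤ ε / 4 := by
    have h1 : δ ≤ ε / (8 * (L + 1)) := min_le_right _ _
    have h2 : δ * (8 * (L + 1)) ≤ ε := (le_div_iff₀ (by positivity)).mp h1
    nlinarith
  obtain ⟨j, hj⟩ := hq.exists_mem_open isOpen_ball ⟨z, mem_ball_self hδ0⟩
  have hjr : q j ∈ ball z r := ball_subset_ball hδr hj
  have hjU : q j ∈ U := hsub (ball_subset_closedBall (ball_subset_ball (by linarith) hjr))
  obtain ⟨l, hl⟩ := hl j hjU
  obtain ⟨N, hN⟩ := Metric.cauchySeq_iff.mp hl.cauchySeq (ε / 4) (by positivity)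
  refine ⟨ball z δ, ball_mem_nhds z hδ0, N, fun i hi i' hi' w hw => ?_⟩
  have hwr : w ∈ ball z r := ball_subset_ball hδr hw
  have hd : ‖w - q j‖ ≤ 2 * δ := by
    rw [← dist_eq_norm]
    rw [mem_ball] at hw hj
    calc dist w (q j) ≤ dist w z + dist (q j) z := dist_triangle_right _ _ _
      _ ≤ 2 * δ := by linarith
  have h1 := hlip i w hwr (q j) hjr
  have h2 := hlip i' w hwr (q j) hjr
  have h3 := hN i hi i' hi'
  rw [dist_eq_norm] at h3
  have h4 : L * ‖w - q j‖ ≤ L * (2 * δ) := mul_le_mul_of_nonneg_left hd hL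
  calc ‖f i w - f i' w‖ = ‖(f i w - f i (q j)) + (f i (q j) - f i' (q j)) -
        (f i' w - f i' (q j))‖ := by congr 1; abel
    _ ≤ ‖(f i w - f i (q j)) + (f i (q j) - f i' (q j))‖ + ‖f i' w - f i' (q j)‖ :=
        norm_sub_le _ _
    _ ≤ ‖f i w - f i (q j)‖ + ‖f i (q j) - f i' (q j)‖ + ‖f i' w - f i' (q j)‖ := by
        gcongr
        exact norm_add_le _ _
    _ ≤ ε := by linarith

/-- Uniform Cauchy property on compact sets. -/
theorem cauchy_cpt {n m : ℕ} {U : Set (Cn n)} (hU : IsOpen U) {f : ℕ → Cn n → Cn m}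
    (hf : ∀ k, DifferentiableOn ℂ (f k) U)
    (hb : ∀ K ⊆ U, IsCompact K → ∃ C : ℝ, ∀ k, ∀ z ∈ K, ‖f k z‖ ≤ C) {q : ℕ → Cn n}
    (hq : DenseRange q) (hl : ∀ j, q j ∈ U → ∃ l, Tendsto (fun k => f k (q j)) atTop (𝓝 l))
    {K : Set (Cn n)} (hK : K ⊆ U) (hKc : IsCompact K) {ε : ℝ} (hε : 0 < ε) :
    ∃ N : ℕ, ∀ i ≥ N, ∀ j ≥ N, ∀ w ∈ K, ‖f i w - f j w‖ ≤ ε := by
  refine hKc.induction_on (p := fun K => ∃ N : ℕ, ∀ i ≥ N, ∀ j ≥ N, ∀ w ∈ K, ‖f i w - f j w‖ ≤ ε)
    ?_ ?_ ?_ ?_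
  · exact ⟨0, fun i _ j _ w hw => absurd hw (notMem_empty w)⟩
  · rintro s t hst ⟨N, hN⟩
    exact ⟨N, fun i hi j hj w hw => hN i hi j hj w (hst hw)⟩
  · rintro s t ⟨N, hN⟩ ⟨N', hN'⟩
    refine ⟨max N N', fun i hi j hj w hw => ?_⟩
    rcases hw with hw | hw
    · exact hN i ((le_max_left _ _).trans hi) j ((le_max_left _ _).trans hj) w hw
    · exact hN' i ((le_max_right _ _).trans hi) j ((le_max_right _ _).trans hj) w hw
  · intro z hz
    obtain ⟨t, ht, N, hN⟩ := cauchy_loc hU hf hb hq hl (hK hz) hε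
    exact ⟨t, mem_nhdsWithin_of_mem_nhds ht, N, hN⟩

/-- Locally uniform limits of holomorphic maps are holomorphic. -/
theorem lim_holo {n m : ℕ} {U : Set (Cn n)} (hU : IsOpen U) {f : ℕ → Cn n → Cn m}
    {F : Cn n → Cn m} (hf : ∀ k, DifferentiableOn ℂ (f k) U)
    (hF : ∀ K ⊆ U, IsCompact K → ∀ ε > 0, ∀ᶠ k in atTop, ∀ z ∈ K, ‖f k z - F z‖ ≤ ε) :
    DifferentiableOn ℂ F U := by
  intro z hz
  obtain ⟨ε, hε, hεU⟩ := Metric.isOpen_iff.mp hU z hz
  set r := ε / 6 with hr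
  have hr0 : 0 < r := by positivity
  have hsub : closedBall z (3 * r) ⊆ U := (closedBall_subset_ball (by linarith)).trans hεU
  have hin : ∀ w ∈ ball z r, ball w (2 * r) ⊆ closedBall z (3 * r) := fun w hw v hv => by
    rw [mem_ball] at hw hv
    rw [mem_closedBall]
    calc dist v z ≤ dist v w + dist w z := dist_triangle _ _ _
      _ ≤ 3 * r := by linarith
  have hdiff : ∀ k, ∀ w ∈ ball z r, DifferentiableAt ℂ (f k) w := fun k w hw =>
    (hf k).differentiableAt (hU.mem_nhds (hsub (hin w hw (mem_ball_self (by positivity)))))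
  have hcau : UniformCauchySeqOn (fun k w => fderiv ℂ (f k) w) atTop (ball z r) := by
    rw [Metric.uniformCauchySeqOn_iff]
    intro η hη
    obtain ⟨N, hN⟩ := eventually_atTop.mp
      (hF _ hsub (isCompact_closedBall z (3 * r)) (η * r / 4) (by positivity))
    refine ⟨N, fun i hi j hj w hw => ?_⟩
    have h1 := Pool.Agent.Helper8.Abund.norm_fderiv_le_of_bound (f := fun u => f i u - f j u)
      (w := w) (M := η * r / 2) hr0
      (((hf i).sub (hf j)).mono ((hin w hw).trans hsub)) fun u hu => by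
        have h2 := hN i hi u (hin w hw hu)
        have h3 := hN j hj u (hin w hw hu)
        calc ‖f i u - f j u‖ = ‖(f i u - F u) - (f j u - F u)‖ := by congr 1; abel
          _ ≤ ‖f i u - F u‖ + ‖f j u - F u‖ := norm_sub_le _ _
          _ ≤ η * r / 2 := by linarith
    have h4 : fderiv ℂ (fun u => f i u - f j u) w = fderiv ℂ (f i) w - fderiv ℂ (f j) w :=
      fderiv_fun_sub (hdiff i w hw) (hdiff j w hw)
    rw [h4] at h1
    rw [dist_eq_norm]
    calc _ ≤ η * r / 2 / r := h1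
      _ = η / 2 := by field_simp
      _ < η := by linarith
  have hlim : ∀ w ∈ ball z r, ∃ L, Tendsto (fun k => fderiv ℂ (f k) w) atTop (𝓝 L) := fun w hw =>
    cauchySeq_tendsto_of_complete (hcau.cauchySeq hw)
  choose! g' hg' using hlim
  have hunif : TendstoUniformlyOn (fun k w => fderiv ℂ (f k) w) g' atTop (ball z r) :=
    hcau.tendstoUniformlyOn_of_tendsto hg'
  have hpt : ∀ w ∈ ball z r, Tendsto (fun k => f k w) atTop (𝓝 (F w)) := by
    intro w hw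
    rw [Metric.tendsto_atTop]
    intro η hη
    obtain ⟨N, hN⟩ := eventually_atTop.mp
      (hF _ hsub (isCompact_closedBall z (3 * r)) (η / 2) (by positivity))
    refine ⟨N, fun k hk => ?_⟩
    rw [dist_eq_norm]
    have := hN k hk w (hin w hw (mem_ball_self (by positivity)))
    linarith
  exact (hasFDerivAt_of_tendstoUniformlyOn isOpen_ball hunif
    (fun k w hw => (hdiff k w hw).hasFDerivAt) hpt
    (mem_ball_self hr0)).differentiableAt.differentiableWithinAt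

/-- Montel's theorem. -/
theorem montel : S_MONTEL := by
  intro n m U hU f hf hb
  obtain ⟨φ, hφ, hl⟩ := diag hb (TopologicalSpace.denseSeq (Cn n))
  have hq : DenseRange (TopologicalSpace.denseSeq (Cn n)) := TopologicalSpace.denseRange_denseSeq _
  have hf' : ∀ k, DifferentiableOn ℂ (f (φ k)) U := fun k => hf _
  have hb' : ∀ K ⊆ U, IsCompact K → ∃ C : ℝ, ∀ k, ∀ z ∈ K, ‖f (φ k) z‖ ≤ C := fun K hK hKc => by
    obtain ⟨C, hC⟩ := hb K hK hKc
    exact ⟨C, fun k => hC _⟩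
  have hcau : ∀ K ⊆ U, IsCompact K → ∀ ε > 0, ∃ N : ℕ, ∀ i ≥ N, ∀ j ≥ N, ∀ w ∈ K,
      ‖f (φ i) w - f (φ j) w‖ ≤ ε := fun K hK hKc ε hε =>
    cauchy_cpt (f := fun k => f (φ k)) hU hf' hb' hq hl hK hKc hε
  have hlim : ∀ z ∈ U, ∃ l, Tendsto (fun k => f (φ k) z) atTop (𝓝 l) := by
    intro z hz
    refine cauchySeq_tendsto_of_complete (Metric.cauchySeq_iff.mpr fun ε hε => ?_)
    obtain ⟨N, hN⟩ := hcau {z} (singleton_subset_iff.mpr hz) isCompact_singleton (ε / 2)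
      (by positivity)
    refine ⟨N, fun i hi j hj => ?_⟩
    rw [dist_eq_norm]
    have := hN i hi j hj z rfl
    linarith
  choose! F hF using hlim
  have hunif : ∀ K ⊆ U, IsCompact K → ∀ ε > 0, ∀ᶠ k in atTop, ∀ z ∈ K,
      ‖f (φ k) z - F z‖ ≤ ε := by
    intro K hK hKc ε hε
    obtain ⟨N, hN⟩ := hcau K hK hKc ε hε
    refine eventually_atTop.mpr ⟨N, fun i hi w hw => ?_⟩
    have h1 : Tendsto (fun j => ‖f (φ i) w - f (φ j) w‖) atTop (𝓝 ‖f (φ i) w - F w‖) :=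
      ((tendsto_const_nhds).sub (hF w (hK hw))).norm
    exact le_of_tendsto h1 (eventually_atTop.mpr ⟨N, fun j hj => hN i hi j hj w hw⟩)
  exact ⟨φ, hφ, F, lim_holo hU hf' hunif, hunif⟩

end Helper27.LinMontel
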