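import Pool.Agent.Helper95.Lin.GoalsI

/-!
# Packet TGA: the action on the tube
-/

open Complex Metric Set Filter Topology

namespace Helper27.LinTga

open Pool.Agent.Helper95.Lin Pool.Agent.Helper16.Abund

variable {b : ℕ} {D : Set (Cn b)} {Γ : Type} {g : Γ → Cn b → Cn b} {a β : Γ → Cn b → ℂ}

/-- The point `(z, w)`. -/
def mk (p : Cn b × ℂ) : Cn (b + 1) := Fin.append p.1 fun _ : Fin 1 => p.2

theorem base_mk (p : Cn b × ℂ) : base (mk p) = p.1 := by
  funext i
  simp [base, mk]

theorem last_mk (p : Cn b × ℂ) : mk p (Fin.natAdd b 0) = p.2 := by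
  unfold mk
  rw [Fin.append_right]

theorem ext_bl {v v' : Cn (b + 1)} (h : base v = base v')
    (h' : v (Fin.natAdd b 0) = v' (Fin.natAdd b 0)) : v = v' := by
  funext i
  refine Fin.addCases (fun j => ?_) (fun j => ?_) i
  · exact congrFun h j
  · have : j = 0 := Subsingleton.elim _ _
    rw [this]
    exact h'

theorem mk_base (v : Cn (b + 1)) : mk (base v, v (Fin.natAdd b 0)) = v :=
  ext_bl (base_mk _) (last_mk _)

theorem continuous_mk : Continuous (mk : Cn b × ℂ → Cn (b + 1)) := by
  refine continuous_pi fun i => ?_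
  refine Fin.addCases (fun j => ?_) (fun j => ?_) i
  · simp only [mk, Fin.append_left]
    fun_prop
  · simp only [mk, Fin.append_right]
    fun_prop

theorem tt_eq (γ : Γ) (v : Cn (b + 1)) : Tt g a β γ v =
    mk (g γ (base v), a γ (base v) * v (Fin.natAdd b 0) + β γ (base v)) := rfl

theorem base_tt (γ : Γ) (v : Cn (b + 1)) : base (Tt g a β γ v) = g γ (base v) := by
  rw [tt_eq, base_mk]

theorem last_tt (γ : Γ) (v : Cn (b + 1)) : Tt g a β γ v (Fin.natAdd b 0) =
    a γ (base v) * v (Fin.natAdd b 0) + β γ (base v) := by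
  rw [tt_eq, last_mk]

theorem tubeS_eq : tubeS D = mk '' (D ×ˢ univ) := by
  ext v
  constructor
  · intro hv
    exact ⟨(base v, v (Fin.natAdd b 0)), ⟨hv, mem_univ _⟩, mk_base v⟩
  · rintro ⟨p, hp, rfl⟩
    have h := hp.1
    unfold tubeS
    rw [mem_ofPred_eq, base_mk]
    exact h

theorem differentiable_base : Differentiable ℂ (base : (Fin (b + 1) → ℂ) → (Fin b → ℂ)) := by
  unfold base
  fun_prop

/-- `Tt` is an action on the tube. -/
theorem tga : S_TGA := by
  intro b D Γ _ g a β hL
  have hD := hL.base.dom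
  refine ⟨⟨?_, ?_, ?_, ?_, ?_⟩, ?_, ?_, ?_⟩
  · exact hD.isOpen.preimage continuous_base
  · intro γ
    have hb : MapsTo (base : Cn (b + 1) → Cn b) (tubeS D) D := fun v hv => hv
    rw [differentiableOn_pi]
    intro i
    refine Fin.addCases (fun j => ?_) (fun j => ?_) i
    · have h1 := (differentiableOn_pi.mp (hL.base.act.holo γ) j).comp
        differentiable_base.differentiableOn hb
      refine h1.congr fun v _ => ?_
      simp [Tt]
    · have h1 := (hL.a_holo γ).comp differentiable_base.differentiableOn hb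
      have h2 := (hL.b_holo γ).comp differentiable_base.differentiableOn hb
      have h3 : Differentiable ℂ fun v : Cn (b + 1) => v (Fin.natAdd b 0) := by fun_prop
      refine ((h1.mul h3.differentiableOn).add h2).congr fun v _ => ?_
      simp [Tt]
  · intro γ v hv
    have : base (Tt g a β γ v) ∈ D := by
      rw [base_tt]
      exact hL.base.act.maps γ _ hv
    exact this
  · intro v hv
    refine ext_bl ?_ ?_
    · rw [base_tt]
      exact hL.base.act.one _ hv
    · rw [last_tt, hL.a_one _ hv, hL.b_one _ hv]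
      ring
  · intro γ γ' v hv
    refine ext_bl ?_ ?_
    · rw [base_tt, base_tt, base_tt]
      exact hL.base.act.mul _ _ _ hv
    · rw [last_tt, last_tt, last_tt, base_tt, hL.a_mul _ _ _ hv, hL.b_mul _ _ _ hv]
      ring
  · rw [tubeS_eq]
    exact (hD.conn.prod isConnected_univ).image _ continuous_mk.continuousOn
  · intro K hK hKc
    obtain ⟨R, hR⟩ := hKc.isBounded.exists_norm_le
    have h1 : base '' K ⊆ D := by
      rintro _ ⟨v, hv, rfl⟩
      exact hK hv
    refine (hL.proper (base '' K) h1 (hKc.image continuous_base) R).subset ?_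
    rintro γ ⟨v, hv, hv'⟩
    refine ⟨base v, ⟨v, hv, rfl⟩, v (Fin.natAdd b 0), (norm_le_pi_norm v _).trans (hR v hv), ?_, ?_⟩
    · exact ⟨_, hv', base_tt γ v⟩
    · rw [← last_tt]
      exact (norm_le_pi_norm _ _).trans (hR _ hv')
  · obtain ⟨K, hK, hKc, R, hR⟩ := hL.coc
    refine ⟨mk '' (K ×ˢ closedBall 0 R), ?_, ?_, ?_⟩
    · rw [tubeS_eq]
      exact image_mono (prod_mono hK (subset_univ _))
    · exact (hKc.prod (isCompact_closedBall 0 R)).image continuous_mk
    · intro v hv
      obtain ⟨γ, h1, h2⟩ := hR (base v) hv (v (Fin.natAdd b 0))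
      refine ⟨γ, ⟨(g γ (base v), a γ (base v) * v (Fin.natAdd b 0) + β γ (base v)), ⟨h1, ?_⟩, rfl⟩⟩
      rw [mem_closedBall_zero_iff]
      exact h2

end Helper27.LinTga
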